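import Mathlib
import Pool.Agent.V11174.HallCount

set_option autoImplicit false

/-! # Cube dismantling: almost no isotopism class of Latin squares contains a solution -/

namespace Pool.Agent.Results.MP_e02782_co.NegligibleClasses

/-- The unit cubes of an `n × n × n` cube. -/
abbrev V (n : ℕ) : Type := Fin 3 → Fin n

/-- Two cubes are adjacent when they differ in exactly one coordinate, and there by exactly `1`. -/
def Adj {n : ℕ} (u v : V n) : Prop :=
  ∃ a : Fin 3, (∀ b, b ≠ a → u b = v b) ∧ ((u a : ℕ) + 1 = v a ∨ (v a : ℕ) + 1 = u a)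

open Classical in
/-- A move deletes from `S` a cube that has exactly `3` neighbours in `S`. -/
def Move {n : ℕ} (S T : Finset (V n)) : Prop :=
  ∃ v ∈ S, (S.filter (fun w => Adj v w)).card = 3 ∧ T = S.erase v

/-- `B` is a solution: `n²` pairwise non-adjacent cubes that remain after a finite sequence of
moves starting from the whole cube. -/
def IsSolution {n : ℕ} (B : Finset (V n)) : Prop :=
  B.card = n ^ 2 ∧ (∀ u ∈ B, ∀ v ∈ B, ¬ Adj u v) ∧ Relation.ReflTransGen Move Finset.univ B

/-- A Latin square of order `n`: an `n × n` array with entries in `Fin n` in which each symbol occurs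
exactly once in every row and exactly once in every column. -/
def IsLatin {n : ℕ} (L : Fin n → Fin n → Fin n) : Prop :=
  (∀ i, Function.Bijective (L i)) ∧ ∀ j, Function.Bijective (fun i => L i j)

/-- The type of Latin squares of order `n`. -/
abbrev LS (n : ℕ) : Type := {L : Fin n → Fin n → Fin n // IsLatin L}

open Classical in
/-- The set of cubes `(i, j, L i j)` associated with `L`. -/
noncomputable def assoc {n : ℕ} (L : Fin n → Fin n → Fin n) : Finset (V n) :=
  Finset.univ.filter (fun v => v 2 = L (v 0) (v 1))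

/-- `L` and `M` are isotopic: `M` arises from `L` by permuting rows (`α`), columns (`β`) and symbols
(`γ`). -/
def Isotopic {n : ℕ} (L M : Fin n → Fin n → Fin n) : Prop :=
  ∃ α β γ : Equiv.Perm (Fin n), ∀ i j, M (α i) (β j) = γ (L i j)

/-- Isotopy as an equivalence relation on the Latin squares of order `n`. -/
def isotopySetoid (n : ℕ) : Setoid (LS n) where
  r L M := Isotopic L.1 M.1
  iseqv :=
    { refl := fun _ => ⟨1, 1, 1, fun _ _ => rfl⟩
      symm := by
        rintro L M ⟨α, β, γ, h⟩
        refine ⟨α.symm, β.symm, γ.symm, fun i j => ?_⟩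
        have := h (α.symm i) (β.symm j)
        rw [Equiv.apply_symm_apply, Equiv.apply_symm_apply] at this
        rw [this, Equiv.symm_apply_apply]
      trans := by
        rintro L M N ⟨α, β, γ, h⟩ ⟨α', β', γ', h'⟩
        refine ⟨α.trans α', β.trans β', γ.trans γ', fun i j => ?_⟩
        simp only [Equiv.trans_apply]
        rw [h', h] }

/-- `I_n`, the number of isotopism classes of Latin squares of order `n`. -/
noncomputable def numClasses (n : ℕ) : ℕ := Nat.card (Quotient (isotopySetoid n))

/-- `s_n`, the number of isotopism classes of order `n` that contain at least one Latin square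
corresponding to a solution. -/
noncomputable def numSolutionClasses (n : ℕ) : ℕ :=
  Nat.card {q : Quotient (isotopySetoid n) //
    ∃ L : LS n, Quotient.mk (isotopySetoid n) L = q ∧ IsSolution (assoc L.1)}

/-! ### The invariant -/

/-- `w` is the predecessor of `u` along axis `a`. -/
def Pred {n : ℕ} (a : Fin 3) (w u : V n) : Prop :=
  (∀ b, b ≠ a → w b = u b) ∧ (w a : ℕ) + 1 = u a

lemma Pred.left_unique {n : ℕ} {a : Fin 3} {w w' u : V n} (h : Pred a w u) (h' : Pred a w' u) :
    w = w' := by
  funext b
  by_cases hb : b = a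
  · subst hb
    have h1 := h.2
    have h2 := h'.2
    exact Fin.ext (by omega)
  · rw [h.1 b hb, h'.1 b hb]

lemma Pred.right_unique {n : ℕ} {a : Fin 3} {w u u' : V n} (h : Pred a w u) (h' : Pred a w u') :
    u = u' := by
  funext b
  by_cases hb : b = a
  · subst hb
    have h1 := h.2
    have h2 := h'.2
    exact Fin.ext (by omega)
  · rw [← h.1 b hb, ← h'.1 b hb]

lemma adj_iff {n : ℕ} (u v : V n) : Adj u v ↔ ∃ a, Pred a u v ∨ Pred a v u := by
  constructor
  · rintro ⟨a, h1, h2 | h2⟩
    · exact ⟨a, Or.inl ⟨h1, h2⟩⟩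
    · exact ⟨a, Or.inr ⟨fun b hb => (h1 b hb).symm, h2⟩⟩
  · rintro ⟨a, ⟨h1, h2⟩ | ⟨h1, h2⟩⟩
    · exact ⟨a, h1, Or.inl h2⟩
    · exact ⟨a, fun b hb => (h1 b hb).symm, Or.inr h2⟩

/-- The axis and the direction are determined by an adjacent pair. -/
lemma Pred.axis_unique {n : ℕ} {a b : Fin 3} {u v : V n} (h : Pred a u v)
    (h' : Pred b u v ∨ Pred b v u) : a = b := by
  by_contra hab
  have h1 := h.2
  rcases h' with h' | h'
  · have h2 := h'.1 a hab
    rw [h2] at h1; omega
  · have h2 := h'.1 a hab
    rw [← h2] at h1; omega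

lemma Pred.asymm {n : ℕ} {a : Fin 3} {u v : V n} (h : Pred a u v) : ¬ Pred a v u := by
  intro h'
  have h1 := h.2
  have h2 := h'.2
  omega

open Classical in
/-- The starts of `S` along axis `a`: members of `S` with no predecessor in `S`. -/
noncomputable def starts {n : ℕ} (a : Fin 3) (S : Finset (V n)) : Finset (V n) :=
  S.filter (fun u => ∀ w ∈ S, ¬ Pred a w u)

open Classical in
/-- number of neighbours of `v` in `S` along axis `a` -/
noncomputable def deg {n : ℕ} (a : Fin 3) (S : Finset (V n)) (v : V n) : ℕ :=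
  (S.filter (fun w => Pred a w v)).card + (S.filter (fun w => Pred a v w)).card

open Classical in
lemma card_starts_erase {n : ℕ} (a : Fin 3) (S : Finset (V n)) (v : V n) (hv : v ∈ S) :
    (starts a (S.erase v)).card + 1 = (starts a S).card + deg a S v := by
  -- starts (S.erase v) = (starts S).erase v ∪ {w ∈ S | Pred a v w}
  have h1 : starts a (S.erase v) = (starts a S).erase v ∪ (S.filter (fun w => Pred a v w)) := by
    ext u
    simp only [starts, Finset.mem_filter, Finset.mem_union, Finset.mem_erase]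
    constructor
    · rintro ⟨⟨huv, huS⟩, h⟩
      by_cases hp : Pred a v u
      · exact Or.inr ⟨huS, hp⟩
      · left
        refine ⟨huv, huS, ?_⟩
        intro w hw hwu
        by_cases hwv : w = v
        · subst hwv; exact hp hwu
        · exact h w ⟨hwv, hw⟩ hwu
    · rintro (⟨huv, huS, h⟩ | ⟨huS, hp⟩)
      · exact ⟨⟨huv, huS⟩, fun w hw => h w hw.2⟩
      · refine ⟨⟨?_, huS⟩, ?_⟩
        · rintro rfl
          have := hp.2
          omega
        · rintro w ⟨hwv, hw⟩ hwu
          exact hwv (hwu.left_unique hp)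
  have hdisj : Disjoint ((starts a S).erase v) (S.filter (fun w => Pred a v w)) := by
    rw [Finset.disjoint_left]
    intro u hu hu'
    simp only [starts, Finset.mem_filter, Finset.mem_erase] at hu hu'
    exact hu.2.2 v hv hu'.2
  rw [h1, Finset.card_union_of_disjoint hdisj]
  have h2 : ((starts a S).erase v).card + 1 = (starts a S).card +
      (S.filter (fun w => Pred a w v)).card := by
    by_cases hvs : v ∈ starts a S
    · have h3 : (S.filter (fun w => Pred a w v)) = ∅ := by
        apply Finset.filter_eq_empty_iff.mpr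
        simp only [starts, Finset.mem_filter] at hvs
        intro w hw
        exact hvs.2 w hw
      rw [h3, Finset.card_empty, add_zero]
      exact Finset.card_erase_add_one hvs
    · rw [Finset.erase_eq_of_notMem hvs]
      have h3 : (S.filter (fun w => Pred a w v)).card = 1 := by
        simp only [starts, Finset.mem_filter, not_and, not_forall, not_not] at hvs
        obtain ⟨w, hw, hwv⟩ := hvs hv
        rw [Finset.card_eq_one]
        refine ⟨w, ?_⟩
        ext x
        simp only [Finset.mem_filter, Finset.mem_singleton]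
        constructor
        · rintro ⟨_, hx⟩
          exact hx.left_unique hwv
        · rintro rfl
          exact ⟨hw, hwv⟩
      rw [h3]
  unfold deg
  omega

open Classical in
lemma sum_deg {n : ℕ} (S : Finset (V n)) (v : V n) :
    ∑ a, deg a S v = (S.filter (fun w => Adj v w)).card := by
  have h1 : S.filter (fun w => Adj v w) = (Finset.univ : Finset (Fin 3)).biUnion
      (fun a => (S.filter (fun w => Pred a w v)) ∪ (S.filter (fun w => Pred a v w))) := by
    ext w
    simp only [Finset.mem_filter, Finset.mem_biUnion, Finset.mem_univ, true_and,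
      Finset.mem_union, adj_iff]
    constructor
    · rintro ⟨hw, a, h | h⟩
      · exact ⟨a, Or.inr ⟨hw, h⟩⟩
      · exact ⟨a, Or.inl ⟨hw, h⟩⟩
    · rintro ⟨a, ⟨hw, h⟩ | ⟨hw, h⟩⟩
      · exact ⟨hw, a, Or.inr h⟩
      · exact ⟨hw, a, Or.inl h⟩
  rw [h1, Finset.card_biUnion]
  · apply Finset.sum_congr rfl
    intro a _
    rw [Finset.card_union_of_disjoint]
    · rfl
    · rw [Finset.disjoint_left]
      intro w hw hw'
      simp only [Finset.mem_filter] at hw hw'
      exact hw.2.asymm hw'.2
  · intro a _ b _ hab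
    rw [Function.onFun, Finset.disjoint_left]
    intro w hw hw'
    simp only [Finset.mem_filter, Finset.mem_union] at hw hw'
    rcases hw with hw | hw
    · exact hab (hw.2.axis_unique (by tauto))
    · exact hab (hw.2.axis_unique (by tauto))

lemma sum_starts_move {n : ℕ} {S T : Finset (V n)} (h : Move S T) :
    ∑ a, (starts a T).card = ∑ a, (starts a S).card := by
  classical
  obtain ⟨v, hv, h3, rfl⟩ := h
  have h1 : ∑ a : Fin 3, ((starts a (S.erase v)).card + 1) =
      ∑ a : Fin 3, ((starts a S).card + deg a S v) :=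
    Finset.sum_congr rfl (fun a _ => card_starts_erase a S v hv)
  rw [Finset.sum_add_distrib, Finset.sum_add_distrib, sum_deg] at h1
  have h4 : (S.filter (fun w => Adj v w)).card = 3 := by
    rw [← h3]
  rw [h4] at h1
  simpa using h1

lemma sum_starts_reach {n : ℕ} {S T : Finset (V n)} (h : Relation.ReflTransGen Move S T) :
    ∑ a, (starts a T).card = ∑ a, (starts a S).card := by
  induction h with
  | refl => rfl
  | tail _ h ih => rw [sum_starts_move h, ih]

/-- Upper bound for the number of starts of the full cube. -/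
lemma starts_univ {n : ℕ} (a : Fin 3) : (starts a (Finset.univ : Finset (V n))).card ≤ n ^ 2 := by
  classical
  -- injection to functions on {b // b ≠ a}
  have hinj : Set.InjOn (fun (u : V n) (b : {b : Fin 3 // b ≠ a}) => u b)
      (starts a (Finset.univ : Finset (V n)) : Set (V n)) := by
    intro u hu v hv huv
    simp only [starts, Finset.coe_filter, Finset.mem_univ, true_and, forall_const,
      Set.mem_ofPred_eq] at hu hv
    have h0 : ∀ u : V n, (∀ w, ¬ Pred a w u) → (u a : ℕ) = 0 := by
      intro u hu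
      by_contra hne
      refine hu (Function.update u a ⟨(u a : ℕ) - 1, by omega⟩) ⟨?_, ?_⟩
      · intro b hb
        rw [Function.update_of_ne hb]
      · rw [Function.update_self]
        simp only
        omega
    funext b
    by_cases hb : b = a
    · subst hb
      exact Fin.ext (by rw [h0 u hu, h0 v hv])
    · exact congrFun huv ⟨b, hb⟩
  calc (starts a (Finset.univ : Finset (V n))).card
      ≤ (Finset.univ : Finset ({b : Fin 3 // b ≠ a} → Fin n)).card :=
        Finset.card_le_card_of_injOn _ (fun _ _ => Finset.mem_coe.mpr (Finset.mem_univ _)) hinj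
    _ = n ^ 2 := by
        rw [Finset.card_univ, Fintype.card_fun, Fintype.card_fin]
        congr 1
        rw [Fintype.card_subtype_compl]
        simp

/-- `u` and `v` are on a common line parallel to axis `a`. -/
def Same {n : ℕ} (a : Fin 3) (u v : V n) : Prop := ∀ b, b ≠ a → u b = v b

/-- Existence of a start below. -/
lemma exists_start {n : ℕ} (a : Fin 3) (S : Finset (V n)) :
    ∀ (k : ℕ) (u : V n), (u a : ℕ) = k → u ∈ S → ∃ s ∈ starts a S, Same a s u ∧
      (s a : ℕ) ≤ u a ∧ ∀ x : V n, Same a x u → (s a : ℕ) ≤ x a → (x a : ℕ) ≤ u a → x ∈ S := by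
  classical
  intro k
  induction k using Nat.strong_induction_on with
  | _ k ih =>
    intro u huk hu
    by_cases hs : u ∈ starts a S
    · refine ⟨u, hs, fun _ _ => rfl, le_refl _, ?_⟩
      intro x hx h1 h2
      have : x = u := by
        funext b
        by_cases hb : b = a
        · subst hb; exact Fin.ext (by omega)
        · exact hx b hb
      rw [this]; exact hu
    · simp only [starts, Finset.mem_filter, not_and, not_forall, not_not] at hs
      obtain ⟨w, hw, hwu⟩ := hs hu
      have hlt : (w a : ℕ) < k := by have := hwu.2; omega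
      obtain ⟨s, hs1, hs2, hs3, hs4⟩ := ih (w a) hlt w rfl hw
      refine ⟨s, hs1, fun b hb => (hs2 b hb).trans (hwu.1 b hb), by have := hwu.2; omega, ?_⟩
      intro x hx h1 h2
      by_cases hxu : (x a : ℕ) = u a
      · have : x = u := by
          funext b
          by_cases hb : b = a
          · subst hb; exact Fin.ext hxu
          · exact hx b hb
        rw [this]; exact hu
      · apply hs4 x (fun b hb => (hx b hb).trans (hwu.1 b hb).symm) h1
        have := hwu.2
        omega

/-- Every reachable set that contains a transversal set `B` of the lines is convex along the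
lines. -/
lemma convex {n : ℕ} (B S : Finset (V n)) (hB : B.card = n ^ 2)
    (hBl : ∀ a, ∀ u ∈ B, ∀ v ∈ B, Same a u v → u = v)
    (hBS : B ⊆ S) (hS : Relation.ReflTransGen Move Finset.univ S)
    (a : Fin 3) (x y z : V n) (hx : x ∈ S) (hz : z ∈ S) (hxy : Same a x y) (hzy : Same a z y)
    (h1 : (x a : ℕ) ≤ y a) (h2 : (y a : ℕ) ≤ z a) (hline : ∃ b ∈ B, Same a b y) : y ∈ S := by
  classical
  have hsum : ∑ a, (starts a S).card ≤ 3 * n ^ 2 := by
    rw [sum_starts_reach hS]
    calc ∑ a, (starts a (Finset.univ : Finset (V n))).card ≤ ∑ _a : Fin 3, n ^ 2 :=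
          Finset.sum_le_sum (fun a _ => starts_univ a)
      _ = 3 * n ^ 2 := by simp
  -- the start map
  have hex : ∀ a : Fin 3, ∀ b : V n, ∃ s : V n, b ∈ B → s ∈ starts a S ∧ Same a s b := by
    intro a b
    by_cases hb : b ∈ B
    · obtain ⟨s, hs1, hs2, _⟩ := exists_start a S (b a) b rfl (hBS hb)
      exact ⟨s, fun _ => ⟨hs1, hs2⟩⟩
    · exact ⟨b, fun h => absurd h hb⟩
  choose σ hσ using hex
  have hinj : ∀ a, Set.InjOn (σ a) (B : Set (V n)) := by
    intro a u hu v hv huv
    have h1 := (hσ a u hu).2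
    have h2 := (hσ a v hv).2
    rw [huv] at h1
    exact hBl a u hu v hv (fun b hb => (h1 b hb).symm.trans (h2 b hb))
  have hle : ∀ a, n ^ 2 ≤ (starts a S).card := by
    intro a
    rw [← hB]
    exact Finset.card_le_card_of_injOn (σ a) (fun b hb => (hσ a b hb).1) (hinj a)
  have heq : ∀ a, (starts a S).card = n ^ 2 := by
    intro a
    rw [Fin.sum_univ_three] at hsum
    have e0 := hle 0
    have e1 := hle 1
    have e2 := hle 2
    fin_cases a <;> simp only [Fin.zero_eta, Fin.mk_one, Fin.reduceFinMk] <;> omega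
  have himg : B.image (σ a) = starts a S := by
    apply Finset.eq_of_subset_of_card_le
    · intro s hs
      obtain ⟨b, hb, rfl⟩ := Finset.mem_image.mp hs
      exact (hσ a b hb).1
    · rw [heq a, Finset.card_image_of_injOn (hinj a), hB]
  obtain ⟨b0, hb0, hb0y⟩ := hline
  -- all starts on the line of y agree
  have huniq : ∀ s ∈ starts a S, Same a s y → s = σ a b0 := by
    intro s hs hsy
    rw [← himg] at hs
    obtain ⟨b, hb, rfl⟩ := Finset.mem_image.mp hs
    have h3 := (hσ a b hb).2
    have : b = b0 := hBl a b hb b0 hb0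
      (fun c hc => ((h3 c hc).symm.trans (hsy c hc)).trans (hb0y c hc).symm)
    rw [this]
  obtain ⟨s, hs1, hs2, hs3, _⟩ := exists_start a S (x a) x rfl hx
  obtain ⟨t, ht1, ht2, ht3, ht4⟩ := exists_start a S (z a) z rfl hz
  have e1 := huniq s hs1 (fun c hc => (hs2 c hc).trans (hxy c hc))
  have e2 := huniq t ht1 (fun c hc => (ht2 c hc).trans (hzy c hc))
  apply ht4 y (fun c hc => (hzy c hc).symm)
  · rw [e2, ← e1]; omega
  · exact h2

/-- Trapped sets: if every member of `C` is strictly between a member of `B` and another member of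
`C` on some axis line, then no member of `C` can ever be deleted. -/
lemma trap {n : ℕ} (B : Finset (V n)) (hB : B.card = n ^ 2)
    (hBl : ∀ a, ∀ u ∈ B, ∀ v ∈ B, Same a u v → u = v)
    (hS : Relation.ReflTransGen Move Finset.univ B) (C : Set (V n))
    (hC : ∀ c ∈ C, ∃ a, ∃ b ∈ B, ∃ c' ∈ C, Same a b c ∧ Same a c' c ∧
      (((b a : ℕ) < c a ∧ (c a : ℕ) < c' a) ∨ ((c' a : ℕ) < c a ∧ (c a : ℕ) < b a))) :
    ∀ c ∈ C, c ∈ B := by
  classical
  have key : ∀ S : Finset (V n), Relation.ReflTransGen Move Finset.univ S → B ⊆ S →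
      ∀ c ∈ C, c ∈ S := by
    intro S h
    induction h with
    | refl => intro _ c _; exact Finset.mem_univ c
    | @tail S T hS hST ih =>
      intro hBT c hc
      have hT : Relation.ReflTransGen Move Finset.univ T := hS.tail hST
      obtain ⟨v, hv, -, hTeq⟩ := hST
      have hBS : B ⊆ S := by
        rw [hTeq] at hBT
        exact hBT.trans (Finset.erase_subset _ _)
      have hCS := ih hBS
      by_cases hcv : c = v
      · exfalso
        subst hcv
        obtain ⟨a, b, hb, c', hc', hbc, hc'c, hbet⟩ := hC c hc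
        have hne : c' ≠ c := by
          rintro rfl
          omega
        have hc'T : c' ∈ T := by
          rw [hTeq]; exact Finset.mem_erase.mpr ⟨hne, hCS c' hc'⟩
        have hcT : c ∈ T := by
          rcases hbet with ⟨h1, h2⟩ | ⟨h1, h2⟩
          · exact convex B T hB hBl hBT hT a b c c' (hBT hb) hc'T hbc hc'c h1.le h2.le
              ⟨b, hb, hbc⟩
          · exact convex B T hB hBl hBT hT a c' c b hc'T (hBT hb) hc'c hbc h1.le h2.le
              ⟨b, hb, hbc⟩
        rw [hTeq] at hcT
        exact (Finset.mem_erase.mp hcT).1 rfl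
      · rw [hTeq]; exact Finset.mem_erase.mpr ⟨hcv, hCS c hc⟩
  exact key B hS (Finset.Subset.refl B)

lemma assoc_card {n : ℕ} (L : Fin n → Fin n → Fin n) : (assoc L).card = n ^ 2 := by
  classical
  have h : (assoc L) = (Finset.univ : Finset (Fin n × Fin n)).image
      (fun p => (![p.1, p.2, L p.1 p.2] : V n)) := by
    ext v
    simp only [assoc, Finset.mem_filter, Finset.mem_univ, true_and, Finset.mem_image]
    constructor
    · intro hv
      refine ⟨(v 0, v 1), ?_⟩
      funext b
      fin_cases b
      · rfl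
      · rfl
      · exact hv.symm
    · rintro ⟨p, rfl⟩
      rfl
  rw [h, Finset.card_image_of_injective]
  · simp [pow_two]
  · intro p q hpq
    have h0 := congrFun hpq 0
    have h1 := congrFun hpq 1
    exact Prod.ext h0 h1

lemma assoc_line {n : ℕ} (L : Fin n → Fin n → Fin n) (hL : IsLatin L) :
    ∀ a, ∀ u ∈ assoc L, ∀ v ∈ assoc L, Same a u v → u = v := by
  classical
  intro a u hu v hv h
  simp only [assoc, Finset.mem_filter, Finset.mem_univ, true_and] at hu hv
  have hcases : a = 0 ∨ a = 1 ∨ a = 2 := by fin_cases a <;> simp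
  rcases hcases with rfl | rfl | rfl
  · have h1 := h 1 (by decide)
    have h2 := h 2 (by decide)
    have h0 : u 0 = v 0 := by
      apply (hL.2 (v 1)).injective
      simp only
      rw [← hv, ← h2, hu, h1]
    funext b
    fin_cases b
    · exact h0
    · exact h1
    · exact h2
  · have h0 := h 0 (by decide)
    have h2 := h 2 (by decide)
    have h1 : u 1 = v 1 := by
      apply (hL.1 (v 0)).injective
      rw [← hv, ← h2, hu, h0]
    funext b
    fin_cases b
    · exact h0
    · exact h1
    · exact h2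
  · have h0 := h 0 (by decide)
    have h1 := h 1 (by decide)
    have h2 : u 2 = v 2 := by rw [hu, hv, h0, h1]
    funext b
    fin_cases b
    · exact h0
    · exact h1
    · exact h2

/-- The row function `f` avoids the patterns 2413 and 3142. -/
def Sep {n : ℕ} (f : Fin n → Fin n) : Prop :=
  ∀ a b c d : Fin n, a < b → b < c → c < d →
    ¬ (f c < f a ∧ f a < f d ∧ f d < f b) ∧ ¬ (f b < f d ∧ f d < f a ∧ f a < f c)

lemma mem_assoc {n : ℕ} (L : Fin n → Fin n → Fin n) (i j k : Fin n) :
    (![i, j, k] : V n) ∈ assoc L ↔ k = L i j := by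
  simp [assoc]

lemma sep_of_solution {n : ℕ} (L : Fin n → Fin n → Fin n) (hL : IsLatin L)
    (h : IsSolution (assoc L)) (i : Fin n) : Sep (L i) := by
  classical
  intro a b c d hab hbc hcd
  have s1 : ∀ (j k k' : Fin n), Same 2 (![i, j, k] : V n) ![i, j, k'] := by
    intro j k k' b hb
    fin_cases b
    · rfl
    · rfl
    · exact absurd rfl hb
  have s2 : ∀ (j j' k : Fin n), Same 1 (![i, j, k] : V n) ![i, j', k] := by
    intro j j' k b hb
    fin_cases b
    · rfl
    · exact absurd rfl hb
    · rfl
  constructor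
  · rintro ⟨h1, h2, h3⟩
    -- corners (b|c, f a | f d)
    have := trap (assoc L) (assoc_card L) (assoc_line L hL) h.2.2
      {v | v = ![i, b, L i a] ∨ v = ![i, b, L i d] ∨ v = ![i, c, L i a] ∨ v = ![i, c, L i d]} ?_
      ![i, b, L i a] (Or.inl rfl)
    · rw [mem_assoc] at this
      rw [this] at h2
      exact absurd (h2.trans h3) (lt_irrefl _)
    · rintro v (rfl | rfl | rfl | rfl)
      · exact ⟨1, ![i, a, L i a], (mem_assoc L _ _ _).mpr rfl, ![i, c, L i a],
          Or.inr (Or.inr (Or.inl rfl)), s2 _ _ _, s2 _ _ _, Or.inl ⟨hab, hbc⟩⟩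
      · exact ⟨2, ![i, b, L i b], (mem_assoc L _ _ _).mpr rfl, ![i, b, L i a],
          Or.inl rfl, s1 _ _ _, s1 _ _ _, Or.inr ⟨h2, h3⟩⟩
      · exact ⟨2, ![i, c, L i c], (mem_assoc L _ _ _).mpr rfl, ![i, c, L i d],
          Or.inr (Or.inr (Or.inr rfl)), s1 _ _ _, s1 _ _ _, Or.inl ⟨h1, h2⟩⟩
      · exact ⟨1, ![i, d, L i d], (mem_assoc L _ _ _).mpr rfl, ![i, b, L i d],
          Or.inr (Or.inl rfl), s2 _ _ _, s2 _ _ _, Or.inr ⟨hbc, hcd⟩⟩
  · rintro ⟨h1, h2, h3⟩
    have := trap (assoc L) (assoc_card L) (assoc_line L hL) h.2.2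
      {v | v = ![i, b, L i a] ∨ v = ![i, b, L i d] ∨ v = ![i, c, L i a] ∨ v = ![i, c, L i d]} ?_
      ![i, b, L i a] (Or.inl rfl)
    · rw [mem_assoc] at this
      rw [this] at h2
      exact absurd (h1.trans h2) (lt_irrefl _)
    · rintro v (rfl | rfl | rfl | rfl)
      · exact ⟨1, ![i, a, L i a], (mem_assoc L _ _ _).mpr rfl, ![i, c, L i a],
          Or.inr (Or.inr (Or.inl rfl)), s2 _ _ _, s2 _ _ _, Or.inl ⟨hab, hbc⟩⟩
      · exact ⟨2, ![i, b, L i b], (mem_assoc L _ _ _).mpr rfl, ![i, b, L i a],
          Or.inl rfl, s1 _ _ _, s1 _ _ _, Or.inl ⟨h1, h2⟩⟩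
      · exact ⟨2, ![i, c, L i c], (mem_assoc L _ _ _).mpr rfl, ![i, c, L i d],
          Or.inr (Or.inr (Or.inr rfl)), s1 _ _ _, s1 _ _ _, Or.inr ⟨h2, h3⟩⟩
      · exact ⟨1, ![i, d, L i d], (mem_assoc L _ _ _).mpr rfl, ![i, b, L i d],
          Or.inr (Or.inl rfl), s2 _ _ _, s2 _ _ _, Or.inr ⟨hbc, hcd⟩⟩

/-! ### Permutations avoiding 2413 and 3142 -/

/-- avoidance of the patterns 2413 and 3142 for lists -/
def Av (l : List ℕ) : Prop := ∀ a b c d : ℕ, [a, b, c, d].Sublist l →
  ¬ (c < a ∧ a < d ∧ d < b) ∧ ¬ (b < d ∧ d < a ∧ a < c)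

lemma Av.sub {l l' : List ℕ} (h : Av l) (hs : l'.Sublist l) : Av l' :=
  fun a b c d h' => h a b c d (h'.trans hs)

lemma split (p : ℕ → Prop) [DecidablePred p] (l : List ℕ) : ∃ l1 l2, l = l1 ++ l2 ∧
    (∀ x ∈ l1, p x) ∧ (l2 = [] ∨ ∃ x t, l2 = x :: t ∧ ¬ p x) := by
  induction l with
  | nil => exact ⟨[], [], rfl, by simp, Or.inl rfl⟩
  | cons x t ih =>
    by_cases hx : p x
    · obtain ⟨l1, l2, h1, h2, h3⟩ := ih
      refine ⟨x :: l1, l2, by rw [h1]; rfl, ?_, h3⟩
      intro y hy
      rcases List.mem_cons.mp hy with rfl | hy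
      · exact hx
      · exact h2 y hy
    · exact ⟨[], x :: t, rfl, by simp, Or.inr ⟨x, t, rfl, hx⟩⟩

lemma exists_max (l : List ℕ) (h : l ≠ []) : ∃ M ∈ l, ∀ x ∈ l, x ≤ M := by
  obtain ⟨M, hM, h2⟩ := Finset.exists_max_image l.toFinset id
    (by obtain ⟨x, t, rfl⟩ := List.exists_cons_of_ne_nil h; exact ⟨x, by simp⟩)
  exact ⟨M, by simpa using hM, fun x hx => h2 x (by simpa using hx)⟩

lemma exists_min (l : List ℕ) (h : l ≠ []) : ∃ M ∈ l, ∀ x ∈ l, M ≤ x := by
  obtain ⟨M, hM, h2⟩ := Finset.exists_min_image l.toFinset id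
    (by obtain ⟨x, t, rfl⟩ := List.exists_cons_of_ne_nil h; exact ⟨x, by simp⟩)
  exact ⟨M, by simpa using hM, fun x hx => h2 x (by simpa using hx)⟩

lemma decomp (l : List ℕ) (hn : l.Nodup) (hl : 2 ≤ l.length) (h : Av l) :
    ∃ l1 l2, l1 ≠ [] ∧ l2 ≠ [] ∧ l = l1 ++ l2 ∧
      ((∀ x ∈ l1, ∀ y ∈ l2, x < y) ∨ (∀ x ∈ l1, ∀ y ∈ l2, y < x)) := by
  have hne : l ≠ [] := by rintro rfl; simp at hl
  obtain ⟨M, hM, hmax⟩ := exists_max l hne
  obtain ⟨m, hm, hmin⟩ := exists_min l hne
  obtain ⟨u, v, rfl⟩ := List.append_of_mem hM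
  have hn' := List.nodup_append.mp hn
  obtain ⟨hu, hMv, hdis⟩ := hn'
  have hMv' := List.nodup_cons.mp hMv
  have huM : ∀ x ∈ u, x < M := by
    intro x hx
    exact lt_of_le_of_ne (hmax x (by simp [hx])) (hdis x hx M (by simp))
  have hvM : ∀ x ∈ v, x < M := by
    intro x hx
    refine lt_of_le_of_ne (hmax x (by simp [hx])) ?_
    rintro rfl
    exact hMv'.1 hx
  by_cases hv : v = []
  · subst hv
    refine ⟨u, [M], ?_, by simp, rfl, Or.inl ?_⟩
    · rintro rfl; simp at hl
    · intro x hx y hy
      rw [List.mem_singleton] at hy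
      subst hy; exact huM x hx
  by_cases hu0 : u = []
  · subst hu0
    refine ⟨[M], v, by simp, hv, rfl, Or.inr ?_⟩
    intro x hx y hy
    rw [List.mem_singleton] at hx
    subst hx; exact hvM y hy
  have huv : ∀ x ∈ u, ∀ y ∈ v, x ≠ y := fun x hx y hy => hdis x hx y (by simp [hy])
  have hmM : m ≠ M := by
    obtain ⟨x, hx⟩ := List.exists_mem_of_ne_nil u hu0
    have h1 := huM x hx
    have h2 := hmin x (by simp [hx])
    omega
  have hmuv : m ∈ u ∨ m ∈ v := by
    simp only [List.mem_append, List.mem_cons] at hm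
    tauto
  rcases hmuv with hmu | hmv
  · -- minimum to the left of the maximum
    obtain ⟨β, hβ, hβmin⟩ := exists_min v hv
    obtain ⟨u1, u2, rfl, hu1, hu2⟩ := split (· < β) u
    have hmβ : m < β := lt_of_le_of_ne (hmin β (by simp [hβ])) (huv m hmu β hβ)
    have hu2' : ∀ y ∈ u2, β < y := by
      intro y hy
      rcases hu2 with rfl | ⟨x, t, rfl, hx⟩
      · simp at hy
      · have hxβ : β < x := lt_of_le_of_ne (not_lt.mp hx) (huv x (by simp) β hβ).symm
        rcases List.mem_cons.mp hy with rfl | hyt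
        · exact hxβ
        · by_contra hlt
          have hlt' : y < β := lt_of_le_of_ne (not_lt.mp hlt) (huv y (by simp [hyt]) β hβ)
          have hsub : [x, y, M, β].Sublist (u1 ++ x :: t ++ M :: v) := by
            have e1 : [x, y].Sublist (u1 ++ x :: t) :=
              ((List.singleton_sublist.mpr hyt).cons_cons x).trans
                (List.sublist_append_right _ _)
            have e2 : [M, β].Sublist (M :: v) := (List.singleton_sublist.mpr hβ).cons_cons M
            exact e1.append e2
          exact (h x y M β hsub).2 ⟨hlt', hxβ, huM x (by simp)⟩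
    have hmu1 : m ∈ u1 := by
      rcases List.mem_append.mp hmu with h1 | h1
      · exact h1
      · have := hu2' m h1; omega
    refine ⟨u1, u2 ++ M :: v, List.ne_nil_of_mem hmu1, by simp, by simp, Or.inl ?_⟩
    intro x hx y hy
    have h1 := hu1 x hx
    have h2 : β ≤ y := by
      simp only [List.mem_append, List.mem_cons] at hy
      rcases hy with hy | rfl | hy
      · exact (hu2' y hy).le
      · exact (hvM β hβ).le
      · exact hβmin y hy
    exact lt_of_lt_of_le h1 h2
  · -- minimum to the right of the maximum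
    obtain ⟨α, hα, hαmin⟩ := exists_min u hu0
    obtain ⟨v1, v2, rfl, hv1, hv2⟩ := split (α < ·) v
    have hmα : m < α := lt_of_le_of_ne (hmin α (by simp [hα])) (huv α hα m hmv).symm
    have hv2' : ∀ y ∈ v2, y < α := by
      intro x hx
      rcases hv2 with rfl | ⟨y, t, rfl, hy⟩
      · simp at hx
      · have hyα : y < α := lt_of_le_of_ne (not_lt.mp hy) (huv α hα y (by simp)).symm
        rcases List.mem_cons.mp hx with rfl | hxt
        · exact hyα
        · by_contra hlt
          have hlt' : α < x := lt_of_le_of_ne (not_lt.mp hlt) (huv α hα x (by simp [hxt]))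
          have hsub : [α, M, y, x].Sublist (u ++ M :: (v1 ++ y :: t)) := by
            have e1 : [α].Sublist u := List.singleton_sublist.mpr hα
            have e2 : [y, x].Sublist (v1 ++ y :: t) :=
              ((List.singleton_sublist.mpr hxt).cons_cons y).trans
                (List.sublist_append_right _ _)
            exact e1.append (e2.cons_cons M)
          exact (h α M y x hsub).1 ⟨hyα, hlt', hvM x (by simp [hxt])⟩
    have hmv2 : m ∈ v2 := by
      rcases List.mem_append.mp hmv with h1 | h1
      · have := hv1 m h1; omega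
      · exact h1
    refine ⟨u ++ M :: v1, v2, by simp, List.ne_nil_of_mem hmv2, by simp, Or.inr ?_⟩
    intro x hx y hy
    have h1 := hv2' y hy
    have h2 : α ≤ x := by
      simp only [List.mem_append, List.mem_cons] at hx
      rcases hx with hx | rfl | hx
      · exact hαmin x hx
      · exact (huM α hα).le
      · exact (hv1 x hx).le
    exact lt_of_lt_of_le h1 h2

lemma split_perm (l1 l2 : List ℕ) (a k1 k2 : ℕ) (h1 : l1.length = k1)
    (hp : (l1 ++ l2).Perm (List.range' a (k1 + k2))) (hlt : ∀ x ∈ l1, ∀ y ∈ l2, x < y) :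
    l1.Perm (List.range' a k1) ∧ l2.Perm (List.range' (a + k1) k2) := by
  have p1 : (l1.insertionSort (· ≤ ·)).Perm l1 := List.perm_insertionSort _ _
  have p2 : (l2.insertionSort (· ≤ ·)).Perm l2 := List.perm_insertionSort _ _
  have hs : (l1.insertionSort (· ≤ ·) ++ l2.insertionSort (· ≤ ·)).Pairwise (· ≤ ·) := by
    rw [List.pairwise_append]
    refine ⟨List.pairwise_insertionSort _ _, List.pairwise_insertionSort _ _, ?_⟩
    intro x hx y hy
    exact (hlt x (p1.mem_iff.mp hx) y (p2.mem_iff.mp hy)).le
  have hr : (List.range' a (k1 + k2)).Pairwise (· ≤ ·) :=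
    (List.pairwise_lt_range' (s := a) (n := k1 + k2)).imp (fun h => h.le)
  have heq : l1.insertionSort (· ≤ ·) ++ l2.insertionSort (· ≤ ·) =
      List.range' a k1 ++ List.range' (a + k1) k2 := by
    rw [List.range'_append_1]
    exact ((p1.append p2).trans hp).eq_of_pairwise' hs hr
  obtain ⟨e1, e2⟩ := List.append_inj heq (by rw [p1.length_eq, h1, List.length_range'])
  exact ⟨by rw [← e1]; exact p1.symm, by rw [← e2]; exact p2.symm⟩

lemma split_perm' (l1 l2 : List ℕ) (a k1 k2 : ℕ) (h2 : l2.length = k2)
    (hp : (l1 ++ l2).Perm (List.range' a (k1 + k2))) (hlt : ∀ x ∈ l1, ∀ y ∈ l2, y < x) :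
    l1.Perm (List.range' (a + k2) k1) ∧ l2.Perm (List.range' a k2) := by
  have hp' : (l2 ++ l1).Perm (List.range' a (k2 + k1)) := by
    rw [add_comm k2 k1]
    exact (List.perm_append_comm).trans hp
  have := split_perm l2 l1 a k2 k1 h2 hp' (fun x hx y hy => hlt y hy x hx)
  exact ⟨this.2, this.1⟩

/-- One step of the stack machine that builds patterns from words over a three-letter alphabet. -/
def step (st : List (List ℕ)) (c : Fin 3) : List (List ℕ) :=
  if c = 0 then [0] :: st
  else if c = 1 then
    match st with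
    | q :: p :: st => (p ++ q.map (· + p.length)) :: st
    | st => st
  else
    match st with
    | q :: p :: st => (p.map (· + q.length) ++ q) :: st
    | st => st

lemma code (k : ℕ) : 1 ≤ k → ∀ (a : ℕ) (l : List ℕ), l.Perm (List.range' a k) → Av l →
    ∃ w : List (Fin 3), w.length = 2 * k - 1 ∧ ∃ p : List ℕ, l = p.map (· + a) ∧
      ∀ st, w.foldl step st = p :: st := by
  induction k using Nat.strong_induction_on with
  | _ k ih =>
    intro hk a l hp hav
    have hlen : l.length = k := by rw [hp.length_eq, List.length_range']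
    have hnd : l.Nodup := hp.nodup_iff.mpr (List.nodup_range' )
    by_cases hk1 : k = 1
    · subst hk1
      have : l = [a] := List.perm_singleton.mp hp
      refine ⟨[0], rfl, [0], ?_, fun st => rfl⟩
      rw [this]; simp
    obtain ⟨l1, l2, hn1, hn2, rfl, hcase⟩ := decomp l hnd (by omega) hav
    have hk1' : 1 ≤ l1.length := List.length_pos_iff.mpr hn1
    have hk2' : 1 ≤ l2.length := List.length_pos_iff.mpr hn2
    rw [List.length_append] at hlen
    rw [← hlen] at hp
    have a1 : Av l1 := hav.sub (List.sublist_append_left _ _)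
    have a2 : Av l2 := hav.sub (List.sublist_append_right _ _)
    rcases hcase with hlt | hlt
    · obtain ⟨q1, q2⟩ := split_perm l1 l2 a _ _ rfl hp hlt
      obtain ⟨w1, hw1, p1, hp1, hf1⟩ := ih l1.length (by omega) hk1' a l1 q1 a1
      obtain ⟨w2, hw2, p2, hp2, hf2⟩ := ih l2.length (by omega) hk2' _ l2 q2 a2
      refine ⟨w1 ++ (w2 ++ [1]), ?_, p1 ++ p2.map (· + p1.length), ?_, ?_⟩
      · simp only [List.length_append, List.length_singleton]; omega
      · have e1 : p1.length = l1.length := by rw [hp1, List.length_map]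
        rw [List.map_append, ← hp1, List.map_map, e1]
        congr 1
        conv_lhs => rw [hp2]
        apply List.map_congr_left
        intro x _
        simp only [Function.comp]
        omega
      · intro st
        rw [List.foldl_append, List.foldl_append, hf1, hf2]
        rfl
    · obtain ⟨q1, q2⟩ := split_perm' l1 l2 a _ _ rfl hp hlt
      obtain ⟨w1, hw1, p1, hp1, hf1⟩ := ih l1.length (by omega) hk1' _ l1 q1 a1
      obtain ⟨w2, hw2, p2, hp2, hf2⟩ := ih l2.length (by omega) hk2' _ l2 q2 a2
      refine ⟨w1 ++ (w2 ++ [2]), ?_, p1.map (· + p2.length) ++ p2, ?_, ?_⟩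
      · simp only [List.length_append, List.length_singleton]; omega
      · have e2 : p2.length = l2.length := by rw [hp2, List.length_map]
        rw [List.map_append, ← hp2, List.map_map, e2]
        congr 1
        conv_lhs => rw [hp1]
        apply List.map_congr_left
        intro x _
        simp only [Function.comp]
        omega
      · intro st
        rw [List.foldl_append, List.foldl_append, hf1, hf2]
        rfl

/-! ### Counting -/

lemma ofFn_perm {n : ℕ} (f : Fin n → Fin n) (hf : Function.Bijective f) :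
    (List.ofFn (fun j => (f j : ℕ))).Perm (List.range' 0 n) := by
  rw [List.perm_ext_iff_of_nodup]
  · intro x
    rw [List.mem_ofFn', List.mem_range'_1]
    constructor
    · rintro ⟨j, rfl⟩
      exact ⟨Nat.zero_le _, by simp⟩
    · rintro ⟨_, h⟩
      obtain ⟨j, hj⟩ := hf.surjective ⟨x, by omega⟩
      exact ⟨j, by simp [hj]⟩
  · rw [List.nodup_ofFn]
    intro i j hij
    exact hf.injective (Fin.ext hij)
  · exact List.nodup_range'

lemma av_ofFn {n : ℕ} (f : Fin n → Fin n) (h : Sep f) :
    Av (List.ofFn (fun j => (f j : ℕ))) := by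
  intro a b c d hs
  rw [List.sublist_iff_exists_fin_orderEmbedding_get_eq] at hs
  obtain ⟨e, he⟩ := hs
  have hlen : (List.ofFn (fun j => (f j : ℕ))).length = n := List.length_ofFn
  let x : Fin 4 → Fin n := fun i => Fin.cast hlen (e i)
  have hx : StrictMono x := by
    intro i j hij
    exact e.strictMono hij
  have hval : ∀ i : Fin 4, [a, b, c, d].get i = (f (x i) : ℕ) := by
    intro i
    rw [he i, List.get_ofFn]
  have h0 : a = (f (x 0) : ℕ) := hval 0
  have h1 : b = (f (x 1) : ℕ) := hval 1
  have h2 : c = (f (x 2) : ℕ) := hval 2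
  have h3 : d = (f (x 3) : ℕ) := hval 3
  have := h (x 0) (x 1) (x 2) (x 3) (hx (by decide)) (hx (by decide)) (hx (by decide))
  rw [h0, h1, h2, h3]
  exact this

lemma card_sep (n : ℕ) :
    Nat.card {f : Fin n → Fin n // Function.Bijective f ∧ Sep f} ≤ 9 ^ n := by
  classical
  rcases Nat.eq_zero_or_pos n with rfl | hn
  · rw [pow_zero]
    exact Finite.card_le_one_iff_subsingleton.mpr inferInstance
  have hex : ∀ f : {f : Fin n → Fin n // Function.Bijective f ∧ Sep f},
      ∃ w : List.Vector (Fin 3) (2 * n - 1),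
        w.1.foldl step [] = [List.ofFn (fun j => (f.1 j : ℕ))] := by
    intro f
    obtain ⟨w, hw, p, hp, hf⟩ := code n hn 0 _ (ofFn_perm f.1 f.2.1) (av_ofFn f.1 f.2.2)
    refine ⟨⟨w, hw⟩, ?_⟩
    rw [hf, hp]
    simp
  choose w hw using hex
  have hinj : Function.Injective w := by
    intro f g hfg
    have h1 := hw f
    rw [hfg, hw g] at h1
    have h2 : List.ofFn (fun j => (g.1 j : ℕ)) = List.ofFn (fun j => (f.1 j : ℕ)) := by
      simpa using h1
    have h3 := List.ofFn_injective h2
    apply Subtype.ext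
    funext j
    exact Fin.ext (congrFun h3 j).symm
  calc Nat.card {f : Fin n → Fin n // Function.Bijective f ∧ Sep f}
      ≤ Nat.card (List.Vector (Fin 3) (2 * n - 1)) := Nat.card_le_card_of_injective w hinj
    _ = 3 ^ (2 * n - 1) := by
        rw [Nat.card_eq_fintype_card, card_vector, Fintype.card_fin]
    _ ≤ 3 ^ (2 * n) := Nat.pow_le_pow_right (by norm_num) (by omega)
    _ = 9 ^ n := by rw [pow_mul]; norm_num

lemma card_solutions (n : ℕ) :
    Nat.card {L : LS n // IsSolution (assoc L.1)} ≤ 9 ^ (n ^ 2) := by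
  classical
  calc Nat.card {L : LS n // IsSolution (assoc L.1)}
      ≤ Nat.card (Fin n → {f : Fin n → Fin n // Function.Bijective f ∧ Sep f}) := by
        refine Nat.card_le_card_of_injective
          (fun L i => ⟨L.1.1 i, L.1.2.1 i, sep_of_solution L.1.1 L.1.2 L.2 i⟩) ?_
        intro L M h
        apply Subtype.ext
        apply Subtype.ext
        funext i
        exact congrArg Subtype.val (congrFun h i)
    _ = (Nat.card {f : Fin n → Fin n // Function.Bijective f ∧ Sep f}) ^ n := by
        rw [Nat.card_fun, Nat.card_eq_fintype_card (α := Fin n), Fintype.card_fin]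
    _ ≤ (9 ^ n) ^ n := Nat.pow_le_pow_left (card_sep n) n
    _ = 9 ^ (n ^ 2) := by rw [← pow_mul, pow_two]

lemma numSolutionClasses_le (n : ℕ) : numSolutionClasses n ≤ 9 ^ (n ^ 2) := by
  refine le_trans ?_ (card_solutions n)
  unfold numSolutionClasses
  refine Nat.card_le_card_of_surjective
    (fun L : {L : LS n // IsSolution (assoc L.1)} =>
      (⟨Quotient.mk (isotopySetoid n) L.1, L.1, rfl, L.2⟩ :
        {q : Quotient (isotopySetoid n) //
          ∃ L : LS n, Quotient.mk (isotopySetoid n) L = q ∧ IsSolution (assoc L.1)})) ?_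
  rintro ⟨q, L, hq, hL⟩
  exact ⟨⟨L, hL⟩, Subtype.ext hq⟩

lemma card_LS_le (n : ℕ) : Nat.card (LS n) ≤ numClasses n * n.factorial ^ 3 := by
  classical
  have hcard : Nat.card (Quotient (isotopySetoid n) × Equiv.Perm (Fin n) × Equiv.Perm (Fin n) ×
      Equiv.Perm (Fin n)) = numClasses n * n.factorial ^ 3 := by
    rw [Nat.card_prod, Nat.card_prod, Nat.card_prod, Nat.card_perm]
    simp only [Nat.card_eq_fintype_card (α := Fin n), Fintype.card_fin]
    unfold numClasses
    ring
  rw [← hcard]
  -- the isotopy action on representatives is onto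
  have hlat : ∀ (L : LS n) (α β γ : Equiv.Perm (Fin n)),
      IsLatin (fun i j => γ (L.1 (α.symm i) (β.symm j))) := by
    intro L α β γ
    constructor
    · intro i
      exact γ.bijective.comp ((L.2.1 (α.symm i)).comp β.symm.bijective)
    · intro j
      exact γ.bijective.comp ((L.2.2 (β.symm j)).comp α.symm.bijective)
  refine Nat.card_le_card_of_surjective
    (fun x : Quotient (isotopySetoid n) × Equiv.Perm (Fin n) × Equiv.Perm (Fin n) ×
      Equiv.Perm (Fin n) => (⟨_, hlat x.1.out x.2.1 x.2.2.1 x.2.2.2⟩ : LS n)) ?_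
  intro M
  have hout : (isotopySetoid n).r (Quotient.mk (isotopySetoid n) M).out M :=
    Quotient.exact (Quotient.out_eq _)
  obtain ⟨α, β, γ, h⟩ := hout
  refine ⟨(Quotient.mk (isotopySetoid n) M, α, β, γ), ?_⟩
  apply Subtype.ext
  funext i j
  simp only
  rw [← h, Equiv.apply_symm_apply, Equiv.apply_symm_apply]

lemma card_rect_le (n : ℕ) : Nat.card (V11174.HallCount.Rect n n) ≤ Nat.card (LS n) := by
  refine Nat.card_le_card_of_injective
    (fun A => ⟨A.1, fun i => Finite.injective_iff_bijective.mp (A.2.1 i),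
      fun j => Finite.injective_iff_bijective.mp (A.2.2 j)⟩) ?_
  intro A B h
  apply Subtype.ext
  exact congrArg (fun x : LS n => x.1) h

/-- The upper bound for `s_n / I_n`. -/
noncomputable def g (n : ℕ) : ℝ :=
  9 ^ (n ^ 2) * (n.factorial : ℝ) ^ 3 / ∏ i ∈ Finset.range n, ((i + 1).factorial : ℝ)

lemma prod_pos' (n : ℕ) : 0 < ∏ i ∈ Finset.range n, ((i + 1).factorial : ℝ) :=
  Finset.prod_pos (fun i _ => by exact_mod_cast Nat.factorial_pos _)

lemma ratio_le_g (n : ℕ) : (numSolutionClasses n : ℝ) / numClasses n ≤ g n := by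
  have h1 : (numSolutionClasses n : ℝ) ≤ 9 ^ (n ^ 2) := by
    exact_mod_cast numSolutionClasses_le n
  have h2 : (∏ i ∈ Finset.range n, ((i + 1).factorial : ℝ)) ≤
      numClasses n * (n.factorial : ℝ) ^ 3 := by
    have := (V11174.HallCount.latin_lower n).trans ((card_rect_le n).trans (card_LS_le n))
    exact_mod_cast this
  have hP := prod_pos' n
  have hf : (0 : ℝ) < (n.factorial : ℝ) ^ 3 := by
    have : (0 : ℝ) < n.factorial := by exact_mod_cast Nat.factorial_pos n
    positivity
  have hI : (0 : ℝ) < numClasses n := by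
    by_contra hneg
    have h0 : (numClasses n : ℝ) = 0 := le_antisymm (not_lt.mp hneg) (Nat.cast_nonneg _)
    rw [h0, zero_mul] at h2
    linarith
  unfold g
  rw [div_le_div_iff₀ hI hP]
  calc (numSolutionClasses n : ℝ) * ∏ i ∈ Finset.range n, ((i + 1).factorial : ℝ)
      ≤ 9 ^ (n ^ 2) * (numClasses n * (n.factorial : ℝ) ^ 3) :=
        mul_le_mul h1 h2 hP.le (by positivity)
    _ = 9 ^ (n ^ 2) * (n.factorial : ℝ) ^ 3 * numClasses n := by ring

lemma g_pos (n : ℕ) : 0 < g n := by
  unfold g
  have hP := prod_pos' n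
  have : (0 : ℝ) < n.factorial := by exact_mod_cast Nat.factorial_pos n
  positivity

lemma g_ratio (n : ℕ) : g (n + 1) / g n = 9 ^ (2 * n + 1) * ((n : ℝ) + 1) ^ 3 /
    ((n + 1).factorial : ℝ) := by
  have hP := prod_pos' n
  have hf : (0 : ℝ) < n.factorial := by exact_mod_cast Nat.factorial_pos n
  have hf1 : (0 : ℝ) < (n + 1).factorial := by exact_mod_cast Nat.factorial_pos (n + 1)
  have e1 : ((n + 1).factorial : ℝ) = ((n : ℝ) + 1) * n.factorial := by
    rw [Nat.factorial_succ]; push_cast; ring
  have e2 : (9 : ℝ) ^ ((n + 1) ^ 2) = 9 ^ (n ^ 2) * 9 ^ (2 * n + 1) := by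
    rw [← pow_add]; congr 1; ring
  unfold g
  rw [Finset.prod_range_succ, e2]
  rw [div_div_eq_mul_div, div_mul_eq_mul_div, div_div, div_eq_div_iff (by positivity) (by positivity)]
  rw [e1]
  ring

open Filter Topology in
lemma g_tendsto : Tendsto g atTop (𝓝 0) := by
  have hsum : Summable g := by
    refine summable_of_ratio_test_tendsto_lt_one (l := 0) zero_lt_one
      (Eventually.of_forall fun n => (g_pos n).ne') ?_
    have h1 : ∀ n, ‖g (n + 1)‖ / ‖g n‖ = 9 ^ (2 * n + 1) * ((n : ℝ) + 1) ^ 3 /
        ((n + 1).factorial : ℝ) := by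
      intro n
      rw [Real.norm_of_nonneg (g_pos _).le, Real.norm_of_nonneg (g_pos _).le, g_ratio]
    simp_rw [h1]
    have h2 : Tendsto (fun n : ℕ => (648 : ℝ) ^ (n + 1) / ((n + 1).factorial : ℝ)) atTop (𝓝 0) :=
      (tendsto_add_atTop_iff_nat 1).mpr (FloorSemiring.tendsto_pow_div_factorial_atTop (648 : ℝ))
    refine squeeze_zero (fun n => by positivity) (fun n => ?_) h2
    apply div_le_div_of_nonneg_right _ (by positivity)
    have h3 : ((n : ℝ) + 1) ≤ 2 ^ (n + 1) := by
      have : n + 1 ≤ 2 ^ (n + 1) := (Nat.lt_two_pow_self).le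
      exact_mod_cast this
    calc (9 : ℝ) ^ (2 * n + 1) * ((n : ℝ) + 1) ^ 3 ≤ 9 ^ (2 * n + 2) * (2 ^ (n + 1)) ^ 3 := by
          apply mul_le_mul
          · exact pow_le_pow_right₀ (by norm_num) (by omega)
          · exact pow_le_pow_left₀ (by positivity) h3 3
          · positivity
          · positivity
      _ = (648 : ℝ) ^ (n + 1) := by
          rw [← pow_mul, show 2 * n + 2 = 2 * (n + 1) by ring, pow_mul, mul_comm (n + 1) 3, pow_mul,
            ← mul_pow]
          norm_num
  exact hsum.tendsto_atTop_zero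

open Filter Topology in
/-- The proportion `s_n / I_n` of isotopism classes of Latin squares of order `n` that contain a
Latin square corresponding to a solution tends to `0`. In particular it is not true that
`s_n / I_n > 1/2` for all sufficiently large `n`. -/
theorem result :
    Tendsto (fun n => (numSolutionClasses n : ℝ) / numClasses n) atTop (𝓝 0) ∧
      ¬ (∀ᶠ n in atTop, (1 / 2 : ℝ) < (numSolutionClasses n : ℝ) / numClasses n) := by
  have h : Tendsto (fun n => (numSolutionClasses n : ℝ) / numClasses n) atTop (𝓝 0) :=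
    squeeze_zero (fun n => by positivity) ratio_le_g g_tendsto
  refine ⟨h, fun h' => ?_⟩
  have h2 : ∀ᶠ n in atTop, (numSolutionClasses n : ℝ) / numClasses n < 1 / 2 :=
    h.eventually_lt_const (by norm_num)
  obtain ⟨n, h3, h4⟩ := (h'.and h2).exists
  exact lt_asymm h3 h4

end Pool.Agent.Results.MP_e02782_co.NegligibleClasses
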